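import Mathlib
import Pool.Agent.V11254.FLewComp

/-!
# Uncountably many axiomatic extensions of FL_ew with deductive interpolation
-/

set_option autoImplicit false
set_option linter.unusedVariables false

namespace Pool.Agent.Results.MP_db33a0_lc.UncountablyManyDIP

open Pool.Agent.V11254 Pool.Agent.V11254.FLewEl


/-! ### Definitions -/

/-- The consequence relation of `FL_ew`: truth preservation in all `FL_ew`-algebras. -/
def Cons (Γ : Set Fml) (φ : Fml) : Prop :=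
  ∀ (A : Type) (_ : FLew A) (v : ℕ → A), (∀ ψ ∈ Γ, eval v ψ = 1) → eval v φ = 1

/-- `L` is an axiomatic extension of `FL_ew`: it is obtained by adding a set of axioms closed
under substitution. -/
def IsAxExt (L : Set Fml → Fml → Prop) : Prop :=
  ∃ Ax : Set Fml, (∀ σ : ℕ → Fml, ∀ φ ∈ Ax, φ.subst σ ∈ Ax) ∧
    ∀ (Γ : Set Fml) (φ : Fml), L Γ φ ↔ Cons (Ax ∪ Γ) φ

/-- the variables of a set of formulas -/
def Vars (Γ : Set Fml) : Set ℕ := {n | ∃ γ ∈ Γ, n ∈ γ.vars}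

/-- The deductive interpolation property. -/
def DIP (L : Set Fml → Fml → Prop) : Prop :=
  ∀ (Γ : Set Fml) (φ : Fml), L Γ φ → ∃ P : Set Fml, Vars P ⊆ Vars Γ ∩ φ.vars ∧
    (∀ π ∈ P, L Γ π) ∧ L P φ

/-! ### Conjunctions and negated powers -/

section Basic

/-- conjunction of a list -/
def conj : List Fml → Fml
  | [] => .e
  | φ :: l => .and φ (conj l)

theorem eval_conj {A : Type} [FLew A] (v : ℕ → A) (l : List Fml) :
    eval v (conj l) = 1 ↔ ∀ φ ∈ l, eval v φ = 1 := by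
  induction l with
  | nil => exact ⟨fun _ φ h => absurd h List.not_mem_nil, fun _ => rfl⟩
  | cons φ l ih =>
    show eval v φ ⊓ eval v (conj l) = 1 ↔ _
    rw [El.inf_eq_one, ih, List.forall_mem_cons]

theorem vars_conj (l : List Fml) (Z : Set ℕ) (h : ∀ φ ∈ l, φ.vars ⊆ Z) : (conj l).vars ⊆ Z := by
  induction l with
  | nil => exact Set.empty_subset Z
  | cons φ l ih =>
    rw [List.forall_mem_cons] at h
    exact Set.union_subset h.1 (ih h.2)

theorem vars_pow5 (φ : Fml) : φ.pow5.vars = φ.vars := by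
  show φ.vars ∪ (φ.vars ∪ (φ.vars ∪ (φ.vars ∪ φ.vars))) = φ.vars
  simp

/-- `¬ φ ^ 5` -/
def np (φ : Fml) : Fml := φ.pow5.neg

theorem vars_np (φ : Fml) : (np φ).vars = φ.vars := by
  show φ.pow5.vars ∪ ∅ = φ.vars
  rw [Set.union_empty, vars_pow5]

variable {V : Type} {s : FLewEl.Inv V}

theorem eval_np (u : ℕ → El s) (φ : Fml) : eval u (np φ) = 1 ↔ eval u φ ≠ 1 := by
  show FLew.imp (eval u φ.pow5) ⊥ = 1 ↔ _
  rw [imp_eq_one, le_bot_iff]
  constructor
  · intro h h1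
    rw [El.eval_pow5_one u φ h1] at h
    cases h
  · exact El.eval_pow5_ne u φ

end Basic

/-! ### The logics -/

/-- validity in the class given by `S` -/
def IsTh (S : Set ℕ) (φ : Fml) : Prop :=
  ∀ (V : Type) (s : FLewEl.Inv V), Nonempty V → Good S s → ∀ u : ℕ → El s, eval u φ = 1

/-- the axiomatic extension given by `S` -/
def LS (S : Set ℕ) (Γ : Set Fml) (φ : Fml) : Prop := Cons ({ψ | IsTh S ψ} ∪ Γ) φ

theorem LS_ext (S : Set ℕ) : IsAxExt (LS S) :=
  ⟨{ψ | IsTh S ψ}, fun σ φ hφ V s hV hs u => by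
    rw [eval_subst]; exact hφ V s hV hs _, fun Γ φ => Iff.rfl⟩

/-- a non-satisfiable set has a non-satisfiable finite list -/
theorem not_satis {S : Set ℕ} {Δ : Set Fml} (h : ¬ Satis S Δ) :
    ∃ F : Finset Fml, (∀ ζ ∈ F, ζ ∈ Δ) ∧ ∀ (V : Type) (s : FLewEl.Inv V) (u : ℕ → El s), Nonempty V →
      Good S s → ∃ ζ ∈ F, eval u ζ ≠ 1 := by
  by_contra hc
  apply h
  refine compactness fun F hF => ?_
  by_contra hn
  apply hc
  refine ⟨F, hF, fun V s u hV hs => ?_⟩
  by_contra hz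
  apply hn
  refine ⟨V, s, u, hV, hs, fun ζ hζ => ?_⟩
  by_contra h1
  exact hz ⟨ζ, hζ, h1⟩

theorem LS_iff (S : Set ℕ) (Γ : Set Fml) (φ : Fml) : LS S Γ φ ↔
    ∀ (V : Type) (s : FLewEl.Inv V), Nonempty V → Good S s → ∀ u : ℕ → El s,
      (∀ γ ∈ Γ, eval u γ = 1) → eval u φ = 1 := by
  classical
  constructor
  · intro h V s hV hs u hu
    refine h (El s) inferInstance u ?_
    rintro ψ (hψ | hψ)
    · exact hψ V s hV hs u
    · exact hu ψ hψ
  · intro h
    have hn : ¬ Satis S (Γ ∪ {np φ}) := by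
      rintro ⟨V, s, u, hV, hs, hu⟩
      exact (eval_np u φ).1 (hu _ (Or.inr rfl)) (h V s hV hs u fun γ hγ => hu γ (Or.inl hγ))
    obtain ⟨F, hF, hF'⟩ := not_satis hn
    let l : List Fml := (F.filter (· ∈ Γ)).toList
    have hl : ∀ ψ, ψ ∈ l ↔ ψ ∈ F ∧ ψ ∈ Γ := by
      intro ψ
      rw [Finset.mem_toList, Finset.mem_filter]
    have hθ : IsTh S ((conj l).pow5.imp φ) := by
      intro V s hV hs u
      show FLew.imp (eval u (conj l).pow5) (eval u φ) = 1
      rw [imp_eq_one]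
      by_cases h1 : eval u (conj l) = 1
      · rw [El.eval_pow5_one u _ h1]
        refine ge_of_eq ?_
        by_contra h2
        obtain ⟨ζ, hζ, hζ'⟩ := hF' V s u hV hs
        rcases hF ζ hζ with h3 | h3
        · exact hζ' ((eval_conj u l).1 h1 ζ ((hl ζ).2 ⟨hζ, h3⟩))
        · rw [show ζ = np φ from h3] at hζ'
          exact hζ' ((eval_np u φ).2 h2)
      · rw [El.eval_pow5_ne u _ h1]
        exact bot_le
    intro A _ v hv
    have h1 : eval v (conj l) = 1 := (eval_conj v l).2 fun ψ hψ => hv ψ (Or.inr ((hl ψ).1 hψ).2)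
    have h2 : FLew.imp (eval v (conj l).pow5) (eval v φ) = 1 := hv _ (Or.inl hθ)
    have h3 : eval v (conj l).pow5 = 1 := by
      show eval v (conj l) * (eval v (conj l) * (eval v (conj l) * (eval v (conj l) *
        eval v (conj l)))) = 1
      rw [h1]; simp
    rw [imp_eq_one, h3] at h2
    exact le_antisymm (le_one' _) h2

/-- satisfiable over a valuation -/
theorem satis_over {S : Set ℕ} {Γ : Set Fml} {V : Type} {s : FLewEl.Inv V} (w : ℕ → El s) (Z : Set ℕ)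
    (h : ∀ ζ : Fml, ζ.vars ⊆ Z → LS S Γ ζ → eval w ζ = 1) :
    ∃ (V' : Type) (s' : FLewEl.Inv V') (u : ℕ → El s'), Nonempty V' ∧ Good S s' ∧
      (∀ γ ∈ Γ, eval u γ = 1) ∧ ∀ ζ : Fml, ζ.vars ⊆ Z → (eval u ζ = 1 ↔ eval w ζ = 1) := by
  classical
  by_contra hc
  have hn : ¬ Satis S (Γ ∪ {ζ | ζ.vars ⊆ Z ∧ eval w ζ = 1}) := by
    rintro ⟨V', s', u, hV, hs, hu⟩
    apply hc
    refine ⟨V', s', u, hV, hs, fun γ hγ => hu γ (Or.inl hγ), fun ζ hζ => ⟨fun h1 => ?_, fun h1 =>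
      hu ζ (Or.inr ⟨hζ, h1⟩)⟩⟩
    by_contra h2
    exact (eval_np u ζ).1 (hu (np ζ) (Or.inr ⟨by rw [vars_np]; exact hζ, (eval_np w ζ).2 h2⟩)) h1
  obtain ⟨F, hF, hF'⟩ := not_satis hn
  let l : List Fml := (F.filter (fun ζ => ζ.vars ⊆ Z ∧ eval w ζ = 1)).toList
  have hl : ∀ ψ, ψ ∈ l ↔ ψ ∈ F ∧ (ψ.vars ⊆ Z ∧ eval w ψ = 1) := by
    intro ψ
    rw [Finset.mem_toList, Finset.mem_filter]
  have hw : eval w (conj l) = 1 := (eval_conj w l).2 fun ψ hψ => ((hl ψ).1 hψ).2.2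
  have hL : LS S Γ (np (conj l)) := by
    rw [LS_iff]
    intro V' s' hV hs u hu
    rw [eval_np]
    intro h1
    obtain ⟨ζ, hζ, hζ'⟩ := hF' V' s' u hV hs
    rcases hF ζ hζ with h3 | h3
    · exact hζ' (hu ζ h3)
    · exact hζ' ((eval_conj u l).1 h1 ζ ((hl ζ).2 ⟨hζ, h3⟩))
  have hv : (np (conj l)).vars ⊆ Z := by
    rw [vars_np]
    exact vars_conj l Z fun ψ hψ => ((hl ψ).1 hψ).2.1
  exact (eval_np w _).1 (h _ hv hL) hw

theorem LS_dip (S : Set ℕ) : DIP (LS S) := by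
  classical
  intro Γ φ hφ
  refine ⟨{π | π.vars ⊆ Vars Γ ∩ φ.vars ∧ LS S Γ π}, ?_, fun π hπ => hπ.2, ?_⟩
  · rintro n ⟨γ, hγ, hn⟩
    exact hγ.1 hn
  by_contra hc
  rw [LS_iff] at hc
  push Not at hc
  obtain ⟨V, s, hV, hs, w, hw, hwφ⟩ := hc
  obtain ⟨V', s', u, hV', hs', huΓ, huw⟩ := satis_over (S := S) (Γ := Γ) w (Vars Γ ∩ φ.vars)
    fun ζ hζ hζ' => hw ζ ⟨hζ, hζ'⟩
  obtain ⟨V₃, s₃, ι₁, ι₂, h3, h4⟩ := El.joint (u := u) (w := w) hs' hs huw
  let t : ℕ → El s₃ := fun n => if n ∈ Vars Γ then El.map ι₁ (u n) else El.map ι₂ (w n)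
  have h5 : ∀ γ ∈ Γ, eval t γ = 1 := by
    intro γ hγ
    have : eval t γ = eval (fun n => El.map ι₁ (u n)) γ :=
      eval_congr γ fun n hn => if_pos ⟨γ, hγ, hn⟩
    rw [this, El.eval_map, El.map_eq_one]
    exact huΓ γ hγ
  have h6 : eval t φ = 1 := (LS_iff S Γ φ).1 hφ V₃ s₃ (hV'.map ι₁.f) h3 t h5
  have h7 : eval t φ = eval (fun n => El.map ι₂ (w n)) φ := by
    refine eval_congr φ fun n hn => ?_
    by_cases h : n ∈ Vars Γ
    · exact (if_pos h).trans (h4 n ⟨h, hn⟩)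
    · exact if_neg h
  rw [h7, El.eval_map, El.map_eq_one] at h6
  exact hwφ h6

/-! ### Different sets give different logics -/

/-- the cycle of length `n` -/
def cyc (n : ℕ) [Fact (1 < n)] : FLewEl.Inv (ZMod n × Bool) where
  a v := (v.1, !v.2)
  b v := if v.2 then (v.1 + 1, false) else (v.1 - 1, true)
  aa := by rintro ⟨i, c⟩; simp
  bb := by rintro ⟨i, c⟩; cases c <;> simp
  ne := by
    rintro ⟨i, c⟩
    have h1 : (1 : ZMod n) ≠ 0 := one_ne_zero
    cases c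
    · intro h
      have h2 : i = i - 1 := congrArg Prod.fst h
      have h3 : i + 1 = i := eq_sub_iff_add_eq.1 h2
      simp at h3
    · intro h
      have h2 : i = i + 1 := congrArg Prod.fst h
      simp at h2

theorem cyc_σ (n : ℕ) [Fact (1 < n)] (m : ℕ) (i : ZMod n) (c : Bool) :
    (cyc n).σ^[m] (i, c) = (if c then i - m else i + m, c) := by
  induction m generalizing i with
  | zero => cases c <;> simp
  | succ m ih =>
    rw [Function.iterate_succ_apply]
    cases c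
    · have : (cyc n).σ (i, false) = (i + 1, false) := by simp [FLewEl.Inv.σ, cyc]
      rw [this, ih]
      simp; ring
    · have : (cyc n).σ (i, true) = (i - 1, true) := by simp [FLewEl.Inv.σ, cyc]
      rw [this, ih]
      simp; ring

theorem cyc_σ_eq (n : ℕ) [Fact (1 < n)] (m : ℕ) (v : ZMod n × Bool) :
    (cyc n).σ^[m] v = v ↔ n ∣ m := by
  obtain ⟨i, c⟩ := v
  rw [cyc_σ, ← ZMod.natCast_eq_zero_iff]
  cases c <;> simp

theorem cyc_good {S : Set ℕ} {n : ℕ} [Fact (1 < n)] (hn : n ∈ S) : Good S (cyc n) := by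
  intro v m hm h1 h2
  rw [cyc_σ_eq] at h1
  have h0 : 0 < n := lt_trans Nat.zero_lt_one Fact.out
  have : n = m := by
    rcases (Nat.le_of_dvd hm h1).eq_or_lt with h | h
    · exact h
    · exact absurd ((cyc_σ_eq n n v).2 dvd_rfl) (h2 n h0 h)
  exact this ▸ hn

/-- the terms for the iterates -/
def tσ : ℕ → Fml
  | 0 => .var 0
  | m + 1 => ((tσ m).imp ((tσ m).tG 1)).imp (((tσ m).imp ((tσ m).tG 1)).tG 2)

theorem eval_tσ {V : Type} {s : FLewEl.Inv V} (u : ℕ → El s) (v : V) (h : u 0 = .g v) (m : ℕ) :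
    eval u (tσ m) = .g (s.σ^[m] v) := by
  induction m with
  | zero => exact h
  | succ m ih =>
    rw [Function.iterate_succ_apply']
    exact El.eval_b u _ _ (El.eval_a u _ _ ih)

theorem mem_of_eq {S S' : Set ℕ} (h : LS S = LS S') {n : ℕ} (hn : 1 < n) (hS : n ∈ S) :
    n ∈ S' := by
  have : Fact (1 < n) := ⟨hn⟩
  let w : ℕ → El (cyc n) := fun _ => .g (0, true)
  obtain ⟨V, s, u, hV, hs, -, huw⟩ := satis_over (S := S') (Γ := ∅) w Set.univ (by
    intro ζ _ hζ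
    rw [← h, LS_iff] at hζ
    exact hζ _ (cyc n) ⟨(0, true)⟩ (cyc_good hS) w fun γ hγ => hγ.elim)
  obtain ⟨v, hv⟩ := El.g_imp (u := w) (w := u) (fun ζ hζ => (huw ζ hζ).symm) (.var 0)
    (Set.subset_univ _) (0, true) rfl
  have key : ∀ m, s.σ^[m] v = v ↔ n ∣ m := by
    intro m
    have h1 := huw ((tσ m).eqv (tσ 0)) (Set.subset_univ _)
    rw [El.eqv_one, El.eqv_one, eval_tσ u v hv, eval_tσ u v hv, eval_tσ w (0, true) rfl,
      eval_tσ w (0, true) rfl, El.g.injEq, El.g.injEq] at h1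
    exact h1.trans (cyc_σ_eq n m _)
  refine hs v n (lt_trans Nat.zero_lt_one hn) ((key n).2 dvd_rfl) fun m hm hmn h1 => ?_
  exact absurd (Nat.le_of_dvd hm ((key m).1 h1)) (not_le.2 hmn)

theorem LS_inj : Function.Injective fun X : Set ℕ => LS ((fun n => n + 2) '' X) := by
  have : ∀ X Y : Set ℕ, LS ((fun n => n + 2) '' X) = LS ((fun n => n + 2) '' Y) → X ⊆ Y := by
    intro X Y h n hn
    obtain ⟨m, hm, hmn⟩ := mem_of_eq h (n := n + 2) (by omega) ⟨n, hn, rfl⟩
    have : m = n := by simpa using hmn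
    exact this ▸ hm
  intro X Y h
  exact Set.Subset.antisymm (this X Y h) (this Y X h.symm)

/-- There are uncountably many axiomatic extensions of `FL_ew` with the deductive interpolation
property. -/
theorem result : ¬ {L : Set Fml → Fml → Prop | IsAxExt L ∧ DIP L}.Countable := by
  intro h
  have h1 : (Set.range fun X : Set ℕ => LS ((fun n => n + 2) '' X)).Countable := by
    refine h.mono ?_
    rintro L ⟨X, rfl⟩
    exact ⟨LS_ext _, LS_dip _⟩
  have h2 : Countable (Set ℕ) := by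
    have := h1.to_subtype
    exact (Equiv.ofInjective _ LS_inj).countable_iff.2 this
  obtain ⟨F, hF⟩ := h2.exists_injective_nat
  exact Function.cantor_injective F hF

end Pool.Agent.Results.MP_db33a0_lc.UncountablyManyDIP
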